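import Pool.Agent.Helper353.PST.Fam4

/-! Unicyclic graphs with perfect state transfer on `n` vertices for every even `n ≥ 218` and every
odd `n ≥ 395`.  The graphs are members of the family `Pool.Agent.Helper353.PST.family` (starting
file); new is the choice of the branches, which reaches all these `n`. -/

set_option autoImplicit false

open Finset

namespace Pool.Agent.Y470.PST

open Pool.Agent.Helper353.PST

/-- number of vertices of the branch at one child of a root -/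
def wz (s : ℕ) (cl : List ℕ) : ℕ := 1 + cl.length + cl.sum + wt s cl

theorem sum_get {α : Type} (l : List α) (f : α → ℕ) :
    ∑ i : Fin l.length, f (l.get i) = (l.map f).sum := by
  rw [← List.sum_ofFn]
  congr 1
  apply List.ext_get
  · simp
  · intro n h1 h2
    simp

theorem family_list (L : List (Bool × ℕ × List ℕ)) (q : ℕ) (hq : Odd q) (hq5 : 5 ≤ q)
    (lam rho : Bool → ℕ) (h1 : ∀ p ∈ L, ∀ c ∈ p.2.2, c ≤ p.2.1)
    (hlam : lam false + lam true = 2 * q ^ 2 + 37) (hrho : rho false + rho true = 36 * q ^ 2)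
    (hZ1 : ∀ c, (L.map fun p => if p.1 = c then 1 else 0).sum + lam c = 2 * q ^ 2 + 16)
    (hZ2 : ∀ c, (L.map fun p => if p.1 = c then p.2.1 else 0).sum + rho c + 38 = 36 * q ^ 2)
    (hH1 : ∀ p ∈ L, p.2.2.length + p.2.1 = lam p.1)
    (hH2 : ∀ p ∈ L, p.2.2.sum + rho p.1 = p.2.1 * p.2.2.length) :
    PSTU (4 + (L.map fun p => wz p.2.1 p.2.2).sum) := by
  have h := family (Fin L.length) (fun i => (L.get i).1) (fun i => (L.get i).2.1)
    (fun i => (L.get i).2.2) (fun i c hc => h1 _ (List.get_mem _ _) c hc) q hq hq5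
    (fun c => (lam c : ℂ)) (fun c => (rho c : ℂ)) (by exact_mod_cast hlam)
    (by exact_mod_cast hrho)
    (by
      intro c
      have e := sum_get L (fun p => if p.1 = c then 1 else 0)
      have e2 := hZ1 c
      rw [← e] at e2
      have e3 : ((∑ i : Fin L.length, (if (L.get i).1 = c then 1 else 0) : ℕ) : ℂ) + (lam c : ℂ) =
          2 * (q : ℂ) ^ 2 + 16 := by exact_mod_cast e2
      push_cast at e3
      linear_combination e3)
    (by
      intro c
      have e := sum_get L (fun p => if p.1 = c then p.2.1 else 0)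
      have e2 := hZ2 c
      rw [← e] at e2
      have e3 : ((∑ i : Fin L.length, (if (L.get i).1 = c then (L.get i).2.1 else 0) : ℕ) : ℂ) +
          (rho c : ℂ) + 38 = 36 * (q : ℂ) ^ 2 := by exact_mod_cast e2
      push_cast at e3
      linear_combination e3)
    (by
      intro i
      have e := hH1 _ (List.get_mem L i)
      have e3 : (((L.get i).2.2.length : ℕ) : ℂ) + ((L.get i).2.1 : ℂ) = (lam (L.get i).1 : ℂ) := by
        exact_mod_cast e
      linear_combination e3)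
    (by
      intro i
      have e := hH2 _ (List.get_mem L i)
      have e3 : (((L.get i).2.2.sum : ℕ) : ℂ) + (rho (L.get i).1 : ℂ) =
          ((L.get i).2.1 : ℂ) * ((L.get i).2.2.length : ℂ) := by
        exact_mod_cast e
      linear_combination (-1 : ℂ) * e3)
  have e : 4 + (L.map fun p => wz p.2.1 p.2.2).sum = 4 + Fintype.card (Fin L.length) +
      ∑ i : Fin L.length, ((L.get i).2.2.length + (L.get i).2.2.sum +
        wt (L.get i).2.1 (L.get i).2.2) := by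
    rw [← sum_get L (fun p => wz p.2.1 p.2.2), add_assoc]
    congr 1
    have : Fintype.card (Fin L.length) = ∑ _i : Fin L.length, 1 := by simp
    rw [this, ← Finset.sum_add_distrib]
    refine Finset.sum_congr rfl fun i _ => ?_
    unfold wz
    ring
  rw [e]
  exact h

/-! ### Sums of table entries, by bit masks -/

/-- evaluates its first argument -/
def force {α : Sort*} (n : ℕ) (f : ℕ → α) : α := Nat.rec (f 0) (fun m _ => f (m + 1)) n

theorem force_eq {α : Sort*} (n : ℕ) (f : ℕ → α) : force n f = f n := by cases n <;> rfl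

/-- one step -/
def comb (T : List (ℕ × ℕ × List ℕ)) (rs : List ℕ) : ℕ :=
  T.foldr (fun p m => (rs.getD (p.1 - 1) 0 <<< p.2.1) ||| m) 0

/-- the masks -/
def loop (T : List (ℕ × ℕ × List ℕ)) : ℕ → List ℕ → List ℕ
  | 0, rs => rs
  | n + 1, rs => force (comb T rs) fun m => loop T n (m :: rs)

/-- The list `rs` describes sums of table entries. -/
def Inv (T : List (ℕ × ℕ × List ℕ)) (a : ℕ) (rs : List ℕ) : Prop :=
  ∀ i w, (rs.getD i 0).testBit w = true → i ≤ a ∧ ∃ l : List (ℕ × ℕ × List ℕ),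
    (∀ p ∈ l, p ∈ T) ∧ (l.map fun p => p.1).sum = a - i ∧ (l.map fun p => p.2.1).sum = w

theorem comb_testBit (T : List (ℕ × ℕ × List ℕ)) (rs : List ℕ) (w : ℕ)
    (h : (comb T rs).testBit w = true) :
    ∃ p ∈ T, p.2.1 ≤ w ∧ (rs.getD (p.1 - 1) 0).testBit (w - p.2.1) = true := by
  unfold comb at h
  induction T with
  | nil => simp at h
  | cons p T ih =>
    rw [List.foldr_cons, Nat.testBit_lor, Bool.or_eq_true] at h
    rcases h with h | h
    · rw [Nat.testBit_shiftLeft, Bool.and_eq_true, decide_eq_true_eq] at h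
      exact ⟨p, by simp, h.1, h.2⟩
    · obtain ⟨p', hp', h2⟩ := ih h
      exact ⟨p', by simp [hp'], h2⟩

theorem inv_step (T : List (ℕ × ℕ × List ℕ)) (hT : ∀ p ∈ T, 1 ≤ p.1) (a : ℕ) (rs : List ℕ)
    (h : Inv T a rs) : Inv T (a + 1) (comb T rs :: rs) := by
  intro i w hw
  rcases i with _ | i
  · rw [List.getD_cons_zero] at hw
    obtain ⟨p, hp, h1, h2⟩ := comb_testBit T rs w hw
    obtain ⟨h3, l, h4, h5, h6⟩ := h _ _ h2
    have h7 := hT p hp
    refine ⟨Nat.zero_le _, p :: l, ?_, ?_, ?_⟩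
    · intro x hx
      rcases List.mem_cons.mp hx with rfl | hx
      · exact hp
      · exact h4 x hx
    · rw [List.map_cons, List.sum_cons, h5]; omega
    · rw [List.map_cons, List.sum_cons, h6]; omega
  · rw [List.getD_cons_succ] at hw
    obtain ⟨h3, l, h4, h5, h6⟩ := h _ _ hw
    exact ⟨by omega, l, h4, by rw [h5]; omega, h6⟩

theorem inv_loop (T : List (ℕ × ℕ × List ℕ)) (hT : ∀ p ∈ T, 1 ≤ p.1) (n : ℕ) :
    ∀ (a : ℕ) (rs : List ℕ), Inv T a rs → Inv T (a + n) (loop T n rs) := by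
  induction n with
  | zero => intro a rs h; exact h
  | succ n ih =>
    intro a rs h
    rw [loop, force_eq]
    have := ih (a + 1) _ (inv_step T hT a rs h)
    rwa [show a + 1 + n = a + (n + 1) by ring] at this

theorem inv_one (T : List (ℕ × ℕ × List ℕ)) : Inv T 0 [1] := by
  intro i w hw
  rcases i with _ | i
  · rw [List.getD_cons_zero] at hw
    have : w = 0 := by
      by_contra hne
      rw [Nat.testBit_one_eq_true_iff_self_eq_zero] at hw
      exact hne hw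
    subst this
    exact ⟨le_refl _, [], by simp, by simp, by simp⟩
  · simp at hw

/-- the mask of all sums with total deficit `a` -/
def mask (T : List (ℕ × ℕ × List ℕ)) (a : ℕ) : ℕ := (loop T a [1]).getD 0 0

theorem mask_spec (T : List (ℕ × ℕ × List ℕ)) (hT : ∀ p ∈ T, 1 ≤ p.1) (a w : ℕ)
    (h : (mask T a).testBit w = true) : ∃ l : List (ℕ × ℕ × List ℕ),
    (∀ p ∈ l, p ∈ T) ∧ (l.map fun p => p.1).sum = a ∧ (l.map fun p => p.2.1).sum = w := by
  have := inv_loop T hT a 0 [1] (inv_one T)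
  rw [zero_add] at this
  obtain ⟨-, l, h1, h2, h3⟩ := this 0 w h
  exact ⟨l, h1, by simpa using h2, h3⟩

theorem testBit_of_full (m lo k j : ℕ) (h : (m >>> lo) % 2 ^ k = 2 ^ k - 1) (h1 : lo ≤ j)
    (h2 : j < lo + k) : m.testBit j = true := by
  have h3 := congrArg (fun x => x.testBit (j - lo)) h
  simp only [Nat.testBit_mod_two_pow, Nat.testBit_two_pow_sub_one, Nat.testBit_shiftRight] at h3
  have h4 : j - lo < k := by omega
  rw [show lo + (j - lo) = j by omega] at h3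
  simpa [h4] using h3

/-! ### The tables -/

/-- branches for a trivial second tree: `(19 - s, h, cl)` -/
def TE : List (ℕ × ℕ × List ℕ) :=
  [(1, 24, [16, 0, 0]),
   (1, 39, [15, 1, 0]),
   (1, 52, [14, 2, 0]),
   (1, 63, [13, 3, 0]),
   (13, 30, [6, 6, 6, 6, 6, 6, 6, 6, 4, 0, 0, 0, 0, 0, 0]),
   (13, 31, [6, 6, 6, 6, 6, 6, 6, 5, 5, 0, 0, 0, 0, 0, 0]),
   (13, 33, [6, 6, 6, 6, 6, 6, 6, 6, 3, 1, 0, 0, 0, 0, 0]),
   (13, 34, [6, 6, 6, 6, 6, 6, 6, 6, 2, 2, 0, 0, 0, 0, 0]),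
   (13, 35, [6, 6, 6, 6, 6, 6, 6, 6, 2, 1, 1, 0, 0, 0, 0]),
   (14, 24, [5, 5, 5, 5, 5, 5, 5, 5, 2, 0, 0, 0, 0, 0, 0, 0]),
   (14, 25, [5, 5, 5, 5, 5, 5, 5, 5, 1, 1, 0, 0, 0, 0, 0, 0]),
   (15, 17, [4, 4, 4, 4, 4, 4, 4, 2, 0, 0, 0, 0, 0, 0, 0, 0, 0]),
   (15, 26, [4, 4, 4, 4, 4, 3, 2, 1, 1, 1, 1, 1, 0, 0, 0, 0, 0]),
   (15, 27, [4, 4, 4, 4, 4, 3, 1, 1, 1, 1, 1, 1, 1, 0, 0, 0, 0]),
   (15, 28, [4, 4, 4, 4, 4, 2, 2, 1, 1, 1, 1, 1, 1, 0, 0, 0, 0]),
   (15, 29, [4, 4, 4, 4, 4, 2, 1, 1, 1, 1, 1, 1, 1, 1, 0, 0, 0]),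
   (15, 47, [2, 2, 2, 2, 2, 2, 2, 2, 2, 2, 2, 2, 2, 1, 1, 1, 1]),
   (16, 9, [3, 3, 3, 3, 3, 1, 0, 0, 0, 0, 0, 0, 0, 0, 0, 0, 0, 0]),
   (16, 10, [3, 3, 3, 3, 2, 2, 0, 0, 0, 0, 0, 0, 0, 0, 0, 0, 0, 0]),
   (16, 11, [3, 3, 3, 3, 2, 1, 1, 0, 0, 0, 0, 0, 0, 0, 0, 0, 0, 0]),
   (16, 12, [3, 3, 3, 3, 1, 1, 1, 1, 0, 0, 0, 0, 0, 0, 0, 0, 0, 0]),
   (16, 13, [3, 3, 3, 2, 2, 1, 1, 1, 0, 0, 0, 0, 0, 0, 0, 0, 0, 0]),
   (16, 14, [3, 3, 3, 2, 1, 1, 1, 1, 1, 0, 0, 0, 0, 0, 0, 0, 0, 0]),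
   (16, 15, [3, 3, 3, 1, 1, 1, 1, 1, 1, 1, 0, 0, 0, 0, 0, 0, 0, 0]),
   (16, 16, [3, 3, 2, 2, 1, 1, 1, 1, 1, 1, 0, 0, 0, 0, 0, 0, 0, 0]),
   (16, 17, [3, 3, 2, 1, 1, 1, 1, 1, 1, 1, 1, 0, 0, 0, 0, 0, 0, 0]),
   (16, 18, [3, 3, 1, 1, 1, 1, 1, 1, 1, 1, 1, 1, 0, 0, 0, 0, 0, 0]),
   (16, 20, [3, 2, 1, 1, 1, 1, 1, 1, 1, 1, 1, 1, 1, 0, 0, 0, 0, 0]),
   (16, 24, [1, 1, 1, 1, 1, 1, 1, 1, 1, 1, 1, 1, 1, 1, 1, 1, 0, 0]),
   (17, 0, [0, 0, 0, 0, 0, 0, 0, 0, 0, 0, 0, 0, 0, 0, 0, 0, 0, 0, 0])]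

/-- branches for a second tree with one child: `(19 - s, h, cl)` -/
def TO : List (ℕ × ℕ × List ℕ) :=
  [(1, 30, [15, 0, 0, 0]),
   (1, 44, [14, 1, 0, 0]),
   (1, 66, [12, 3, 0, 0]),
   (4, 42, [15, 15, 15, 3, 0, 0, 0]),
   (4, 45, [15, 15, 15, 1, 1, 1, 0]),
   (14, 17, [5, 5, 5, 5, 5, 3, 0, 0, 0, 0, 0, 0, 0, 0, 0, 0, 0]),
   (14, 19, [5, 5, 5, 5, 5, 2, 1, 0, 0, 0, 0, 0, 0, 0, 0, 0, 0]),
   (15, 9, [4, 4, 4, 3, 0, 0, 0, 0, 0, 0, 0, 0, 0, 0, 0, 0, 0, 0]),
   (15, 11, [4, 4, 4, 2, 1, 0, 0, 0, 0, 0, 0, 0, 0, 0, 0, 0, 0, 0]),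
   (15, 12, [4, 4, 4, 1, 1, 1, 0, 0, 0, 0, 0, 0, 0, 0, 0, 0, 0, 0]),
   (15, 13, [4, 4, 3, 2, 2, 0, 0, 0, 0, 0, 0, 0, 0, 0, 0, 0, 0, 0]),
   (15, 14, [4, 4, 3, 2, 1, 1, 0, 0, 0, 0, 0, 0, 0, 0, 0, 0, 0, 0]),
   (15, 15, [4, 4, 3, 1, 1, 1, 1, 0, 0, 0, 0, 0, 0, 0, 0, 0, 0, 0]),
   (15, 16, [4, 4, 2, 2, 1, 1, 1, 0, 0, 0, 0, 0, 0, 0, 0, 0, 0, 0]),
   (15, 17, [4, 4, 2, 1, 1, 1, 1, 1, 0, 0, 0, 0, 0, 0, 0, 0, 0, 0]),
   (15, 18, [4, 4, 1, 1, 1, 1, 1, 1, 1, 0, 0, 0, 0, 0, 0, 0, 0, 0]),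
   (15, 19, [4, 3, 2, 2, 1, 1, 1, 1, 0, 0, 0, 0, 0, 0, 0, 0, 0, 0]),
   (15, 20, [4, 3, 2, 1, 1, 1, 1, 1, 1, 0, 0, 0, 0, 0, 0, 0, 0, 0]),
   (16, 0, [0, 0, 0, 0, 0, 0, 0, 0, 0, 0, 0, 0, 0, 0, 0, 0, 0, 0, 0])]

/-- an entry of a table is correct -/
def Ok (lam rho g : ℕ) (p : ℕ × ℕ × List ℕ) : Prop :=
  1 ≤ p.1 ∧ p.1 ≤ 17 ∧ p.2.2.length + (19 - p.1) = lam ∧
    p.2.2.sum + rho = (19 - p.1) * p.2.2.length ∧ (∀ c ∈ p.2.2, c ≤ 19 - p.1) ∧
    wz (19 - p.1) p.2.2 = g + p.1 + 2 * p.2.1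

instance (lam rho g : ℕ) (p : ℕ × ℕ × List ℕ) : Decidable (Ok lam rho g p) := by
  unfold Ok; infer_instance

theorem TE_ok : ∀ p ∈ TE, Ok 21 38 3 p := by decide +kernel

theorem TO_ok : ∀ p ∈ TO, Ok 22 57 4 p := by decide +kernel

theorem ok_sums (lam rho g : ℕ) (l : List (ℕ × ℕ × List ℕ)) (h : ∀ p ∈ l, Ok lam rho g p) :
    (l.map fun p => 19 - p.1).sum + (l.map fun p => p.1).sum = 19 * l.length ∧
    (l.map fun p => wz (19 - p.1) p.2.2).sum = g * l.length + (l.map fun p => p.1).sum +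
      2 * (l.map fun p => p.2.1).sum ∧ l.length ≤ (l.map fun p => p.1).sum := by
  induction l with
  | nil => simp
  | cons p l ih =>
    obtain ⟨h1, h2, h3⟩ := ih fun x hx => h x (by simp [hx])
    obtain ⟨a1, a2, a3, a4, a5, a6⟩ := h p (by simp)
    simp only [List.map_cons, List.sum_cons, List.length_cons]
    rw [a6]
    refine ⟨by omega, ?_, by omega⟩
    rw [h2]
    ring

/-- the list of the children of the first root -/
def mk (l : List (ℕ × ℕ × List ℕ)) (N : ℕ) (b : List ℕ) : List (Bool × ℕ × List ℕ) :=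
  (l.map fun p => (false, 19 - p.1, p.2.2)) ++ List.replicate (N - l.length) (false, 19, b)

theorem mem_mk (l : List (ℕ × ℕ × List ℕ)) (N : ℕ) (b : List ℕ) (p : Bool × ℕ × List ℕ)
    (hp : p ∈ mk l N b) : (∃ x ∈ l, p = (false, 19 - x.1, x.2.2)) ∨ p = (false, 19, b) := by
  unfold mk at hp
  rcases List.mem_append.mp hp with h | h
  · obtain ⟨x, hx, rfl⟩ := List.mem_map.mp h
    exact Or.inl ⟨x, hx, rfl⟩
  · exact Or.inr (List.eq_of_mem_replicate h)

theorem even_case' (q : ℕ) (hq : Odd q) (hq5 : 5 ≤ q) (l : List (ℕ × ℕ × List ℕ))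
    (hl : ∀ p ∈ l, p ∈ TE) (hd : (l.map fun p => p.1).sum + 19 = 2 * q ^ 2) :
    PSTU (8 * q ^ 2 - 30 + 2 * (l.map fun p => p.2.1).sum) := by
  have hq2 : 25 ≤ q ^ 2 := by nlinarith
  obtain ⟨s1, s2, s3⟩ := ok_sums 21 38 3 l fun p hp => TE_ok p (hl p hp)
  have hmem := mem_mk l (2 * q ^ 2 - 5) [0, 0]
  have h := family_list (mk l (2 * q ^ 2 - 5) [0, 0]) q hq hq5
    (fun c => if c then 2 * q ^ 2 + 16 else 21) (fun c => if c then 36 * q ^ 2 - 38 else 38)
    (by
      intro p hp c hc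
      rcases hmem p hp with ⟨x, hx, rfl⟩ | rfl
      · exact (TE_ok x (hl x hx)).2.2.2.2.1 c hc
      · simp at hc; omega)
    (by simp; ring) (by simp; omega)
    (by
      intro c
      unfold mk
      cases c
      · simp [List.map_append, List.map_map, Function.comp_def, List.map_replicate]
        omega
      · simp [List.map_append, List.map_map, Function.comp_def, List.map_replicate])
    (by
      intro c
      unfold mk
      cases c
      · simp only [List.map_append, List.map_map, Function.comp_def, List.map_replicate,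
          List.sum_append, List.sum_replicate, if_true, smul_eq_mul, Bool.false_eq_true, if_false]
        omega
      · simp [List.map_append, List.map_map, Function.comp_def, List.map_replicate]
        omega)
    (by
      intro p hp
      rcases hmem p hp with ⟨x, hx, rfl⟩ | rfl
      · simpa using (TE_ok x (hl x hx)).2.2.1
      · simp)
    (by
      intro p hp
      rcases hmem p hp with ⟨x, hx, rfl⟩ | rfl
      · simpa using (TE_ok x (hl x hx)).2.2.2.1
      · simp)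
  have e : 4 + ((mk l (2 * q ^ 2 - 5) [0, 0]).map fun p => wz p.2.1 p.2.2).sum =
      8 * q ^ 2 - 30 + 2 * (l.map fun p => p.2.1).sum := by
    unfold mk
    have e0 : wz 19 [0, 0] = 3 := by decide
    simp only [List.map_append, List.map_map, Function.comp_def, List.map_replicate,
      List.sum_append, List.sum_replicate, smul_eq_mul, e0]
    omega
  rw [e] at h
  exact h

theorem odd_case' (q : ℕ) (hq : Odd q) (hq5 : 5 ≤ q) (l : List (ℕ × ℕ × List ℕ))
    (hl : ∀ p ∈ l, p ∈ TO) (hd : (l.map fun p => p.1).sum + 19 = 2 * q ^ 2) (y : List ℕ)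
    (hy1 : y.length + 4 = 2 * q ^ 2) (hy2 : y.sum + 19 = 2 * q ^ 2) (hy3 : ∀ c ∈ y, c ≤ 19) :
    PSTU (wz 19 y + 10 * q ^ 2 - 39 + 2 * (l.map fun p => p.2.1).sum) := by
  have hq2 : 25 ≤ q ^ 2 := by nlinarith
  obtain ⟨s1, s2, s3⟩ := ok_sums 22 57 4 l fun p hp => TO_ok p (hl p hp)
  have hmem := mem_mk l (2 * q ^ 2 - 6) [0, 0, 0]
  have h := family_list ((true, 19, y) :: mk l (2 * q ^ 2 - 6) [0, 0, 0]) q hq hq5
    (fun c => if c then 2 * q ^ 2 + 15 else 22) (fun c => if c then 36 * q ^ 2 - 57 else 57)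
    (by
      intro p hp c hc
      rcases List.mem_cons.mp hp with rfl | hp
      · exact hy3 c hc
      rcases hmem p hp with ⟨x, hx, rfl⟩ | rfl
      · exact (TO_ok x (hl x hx)).2.2.2.2.1 c hc
      · simp at hc; omega)
    (by simp; ring) (by simp; omega)
    (by
      intro c
      unfold mk
      cases c
      · simp [List.map_append, List.map_map, Function.comp_def, List.map_replicate]
        omega
      · simp [List.map_append, List.map_map, Function.comp_def, List.map_replicate]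
        omega)
    (by
      intro c
      unfold mk
      cases c
      · simp only [List.map_cons, List.sum_cons, List.map_append, List.map_map, Function.comp_def,
          List.map_replicate, List.sum_append, List.sum_replicate, if_true, smul_eq_mul,
          Bool.false_eq_true, if_false, Bool.true_eq_false]
        omega
      · simp [List.map_append, List.map_map, Function.comp_def, List.map_replicate]
        omega)
    (by
      intro p hp
      rcases List.mem_cons.mp hp with rfl | hp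
      · simp; omega
      rcases hmem p hp with ⟨x, hx, rfl⟩ | rfl
      · simpa using (TO_ok x (hl x hx)).2.2.1
      · simp)
    (by
      intro p hp
      rcases List.mem_cons.mp hp with rfl | hp
      · simp; omega
      rcases hmem p hp with ⟨x, hx, rfl⟩ | rfl
      · simpa using (TO_ok x (hl x hx)).2.2.2.1
      · simp)
  have e : 4 + (((true, 19, y) :: mk l (2 * q ^ 2 - 6) [0, 0, 0]).map fun p =>
      wz p.2.1 p.2.2).sum = wz 19 y + 10 * q ^ 2 - 39 + 2 * (l.map fun p => p.2.1).sum := by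
    unfold mk
    have e0 : wz 19 [0, 0, 0] = 4 := by decide
    simp only [List.map_cons, List.sum_cons, List.map_append, List.map_map, Function.comp_def,
      List.map_replicate, List.sum_append, List.sum_replicate, smul_eq_mul, e0]
    omega
  rw [e] at h
  exact h

theorem TE_pos : ∀ p ∈ TE, 1 ≤ p.1 := fun p hp => (TE_ok p hp).1

theorem TO_pos : ∀ p ∈ TO, 1 ≤ p.1 := fun p hp => (TO_ok p hp).1

theorem fullE5 : (mask TE 31 >>> 24) % 2 ^ 391 = 2 ^ 391 - 1 := by decide +kernel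

theorem fullE7 : (mask TE 79 >>> 319) % 2 ^ 4500 = 2 ^ 4500 - 1 := by decide +kernel

/-- mask of the odd case for `q = 5` -/
def maskO5 : ℕ := force (mask TO 31) fun m => m ||| (m <<< 10 ||| (m <<< 18 ||| m <<< 26))

theorem fullO5 : (maskO5 >>> 11) % 2 ^ 453 = 2 ^ 453 - 1 := by decide +kernel

theorem bit9 : (mask TO 31).testBit 9 = true := by decide +kernel

theorem fullO7 : (mask TO 79 >>> 314) % 2 ^ 4350 = 2 ^ 4350 - 1 := by decide +kernel

theorem pstu_even5 (w : ℕ) (h1 : 24 ≤ w) (h2 : w < 415) : PSTU (170 + 2 * w) := by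
  obtain ⟨l, a1, a2, a3⟩ := mask_spec TE TE_pos 31 w
    (testBit_of_full _ 24 391 w fullE5 h1 (by omega))
  have := even_case' 5 (by decide) (by norm_num) l a1 (by rw [a2]; norm_num)
  rw [a3] at this
  simpa using this

theorem pstu_even7 (w : ℕ) (h1 : 319 ≤ w) (h2 : w < 4819) : PSTU (362 + 2 * w) := by
  obtain ⟨l, a1, a2, a3⟩ := mask_spec TE TE_pos 79 w
    (testBit_of_full _ 319 4500 w fullE7 h1 (by omega))
  have := even_case' 7 (by decide) (by norm_num) l a1 (by rw [a2]; norm_num)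
  rw [a3] at this
  simpa using this

theorem pstu_oddy (w : ℕ) (h : (mask TO 31).testBit w = true) (y : List ℕ) (Y : ℕ)
    (hy : y.length = 46 ∧ y.sum = 31 ∧ (∀ c ∈ y, c ≤ 19) ∧ wz 19 y = 162 + 2 * Y) :
    PSTU (373 + 2 * (w + Y)) := by
  obtain ⟨l, a1, a2, a3⟩ := mask_spec TO TO_pos 31 w h
  have := odd_case' 5 (by decide) (by norm_num) l a1 (by rw [a2]; norm_num) y
    (by rw [hy.1]; norm_num) (by rw [hy.2.1]; norm_num) hy.2.2.1
  rw [a3, hy.2.2.2] at this
  have e : 162 + 2 * Y + 10 * 5 ^ 2 - 39 + 2 * w = 373 + 2 * (w + Y) := by omega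
  rwa [e] at this

theorem pstu_odd5 (w : ℕ) (h1 : 11 ≤ w) (h2 : w < 464) : PSTU (373 + 2 * w) := by
  have h := testBit_of_full _ 11 453 w fullO5 h1 (by omega)
  rw [maskO5, force_eq, Nat.testBit_lor, Nat.testBit_lor, Nat.testBit_lor, Nat.testBit_shiftLeft,
    Nat.testBit_shiftLeft, Nat.testBit_shiftLeft, Bool.or_eq_true, Bool.or_eq_true,
    Bool.or_eq_true, Bool.and_eq_true, Bool.and_eq_true, Bool.and_eq_true, decide_eq_true_eq,
    decide_eq_true_eq, decide_eq_true_eq] at h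
  rcases h with h | ⟨h0, h⟩ | ⟨h0, h⟩ | ⟨h0, h⟩
  · exact pstu_oddy w h ([19, 12] ++ List.replicate 44 0) 0 (by decide +kernel)
  · have := pstu_oddy _ h ([17, 14] ++ List.replicate 44 0) 10 (by decide +kernel)
    rwa [show w - 10 + 10 = w by omega] at this
  · have := pstu_oddy _ h ([18, 12, 1] ++ List.replicate 43 0) 18 (by decide +kernel)
    rwa [show w - 18 + 18 = w by omega] at this
  · have := pstu_oddy _ h ([16, 14, 1] ++ List.replicate 43 0) 26 (by decide +kernel)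
    rwa [show w - 26 + 26 = w by omega] at this

theorem pstu_391 : PSTU 391 := by
  exact pstu_oddy 9 bit9 ([19, 12] ++ List.replicate 44 0) 0 (by decide +kernel)

theorem pstu_odd7 (w : ℕ) (h1 : 314 ≤ w) (h2 : w < 4664) : PSTU (673 + 2 * w) := by
  obtain ⟨l, a1, a2, a3⟩ := mask_spec TO TO_pos 79 w
    (testBit_of_full _ 314 4350 w fullO7 h1 (by omega))
  have := odd_case' 7 (by decide) (by norm_num) l a1 (by rw [a2]; norm_num)
    ([19, 19, 19, 19, 3] ++ List.replicate 89 0) (by decide) (by decide) (by decide +kernel)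
  have e0 : wz 19 ([19, 19, 19, 19, 3] ++ List.replicate 89 0) = 222 := by decide +kernel
  rw [a3, e0] at this
  have e : 222 + 10 * 7 ^ 2 - 39 + 2 * w = 673 + 2 * w := by omega
  rwa [e] at this

theorem pstu_even (n : ℕ) (hn : 218 ≤ n) (he : Even n) : PSTU n := by
  obtain ⟨m, hm⟩ := he
  rcases Nat.lt_or_ge n 10000 with h | h
  · rcases Nat.lt_or_ge n 1000 with h2 | h2
    · have := pstu_even5 ((n - 170) / 2) (by omega) (by omega)
      rwa [show 170 + 2 * ((n - 170) / 2) = n by omega] at this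
    · have := pstu_even7 ((n - 362) / 2) (by omega) (by omega)
      rwa [show 362 + 2 * ((n - 362) / 2) = n by omega] at this
  · exact pstu_large n h

theorem pstu_odd (n : ℕ) (hn : 395 ≤ n) (ho : Odd n) : PSTU n := by
  obtain ⟨m, hm⟩ := ho
  rcases Nat.lt_or_ge n 10000 with h | h
  · rcases Nat.lt_or_ge n 1301 with h2 | h2
    · have := pstu_odd5 ((n - 373) / 2) (by omega) (by omega)
      rwa [show 373 + 2 * ((n - 373) / 2) = n by omega] at this
    · have := pstu_odd7 ((n - 673) / 2) (by omega) (by omega)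
      rwa [show 673 + 2 * ((n - 673) / 2) = n by omega] at this
  · exact pstu_large n h

end Pool.Agent.Y470.PST
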